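import Pool.Agent.Run7.h430.OD.B
import Pool.Agent.R460.GP.Conv
import Pool.Agent.N733.AQ.A

set_option autoImplicit false

/-! The lower bound for prime pairs in all windows at all scales, in the form needed for linear combinations of `m` and
`f m` (helper430). -/

namespace Run7.h430.OD

open Finset Filter Topology
open Pool.Agent.H560R3.GB (sing)

/-- Every window in `(0, n (log n)^K]` of a length of at least `n / (log n)^K` contains at least `1 / 21` of the predicted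
number of primes `p` with `p + n` prime. -/
def AllW (K n : ℕ) : Prop := ∀ u v : ℝ, 0 ≤ u → v ≤ n * Real.log n ^ K → n / Real.log n ^ K ≤ v - u →
    1 / 21 * (sing n * (v - u) / Real.log n ^ 2) ≤ (Pool.Agent.R460.GP.pairs n u v : ℝ)

/-- a pair of primes, and many pairs in all windows -/
def DW (K n : ℕ) : Prop := (∃ p : ℕ, p.Prime ∧ (p + n).Prime) ∧ AllW K n

lemma ev_low (A B K : ℕ) : ∃ X₀ : ℝ, 3 ≤ X₀ ∧ ∀ X : ℝ, X₀ ≤ X → 4 ≤ Real.log X ∧ 21 * Real.log X ^ B ≤ X ∧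
    4 * Real.log X ^ A ≤ X ^ (3 / 10 : ℝ) ∧ 50 * ((B : ℝ) + K) * Real.log (Real.log X) ≤ Real.log X := by
  have h1 := Real.tendsto_log_atTop.eventually_ge_atTop 4
  have h2 := (isLittleO_log_rpow_rpow_atTop (s := (1 : ℝ)) (B : ℝ) (by norm_num)).bound (c := 1 / 21) (by norm_num)
  have h3 := (isLittleO_log_rpow_rpow_atTop (s := (3 / 10 : ℝ)) (A : ℝ) (by norm_num)).bound (c := 1 / 4) (by norm_num)
  have h4 := (Real.isLittleO_log_id_atTop.comp_tendsto Real.tendsto_log_atTop).bound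
    (c := 1 / (50 * ((B : ℝ) + K) + 1)) (by positivity)
  obtain ⟨X₀, hX₀⟩ := eventually_atTop.1 (h1.and (h2.and (h3.and h4)))
  refine ⟨max X₀ 3, le_max_right _ _, fun X hX => ?_⟩
  obtain ⟨a1, a2, a3, a4⟩ := hX₀ X ((le_max_left _ _).trans hX)
  have hX3 : (3 : ℝ) ≤ X := (le_max_right _ _).trans hX
  have hX0 : (0 : ℝ) < X := by linarith
  have hl : 0 ≤ Real.log X := Real.log_nonneg (by linarith)
  rw [Real.norm_of_nonneg (by positivity), Real.norm_of_nonneg (by positivity), Real.rpow_natCast] at a2 a3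
  rw [Real.rpow_one] at a2
  simp only [Function.comp_apply, id] at a4
  have hll : 0 ≤ Real.log (Real.log X) := Real.log_nonneg (by linarith)
  rw [Real.norm_of_nonneg hll, Real.norm_of_nonneg hl] at a4
  refine ⟨a1, by linarith, by linarith, ?_⟩
  have hM : (0 : ℝ) < 50 * ((B : ℝ) + K) + 1 := by positivity
  calc 50 * ((B : ℝ) + K) * Real.log (Real.log X) ≤ (50 * ((B : ℝ) + K) + 1) * Real.log (Real.log X) := by
        apply mul_le_mul_of_nonneg_right _ hll
        linarith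
    _ ≤ (50 * ((B : ℝ) + K) + 1) * (1 / (50 * ((B : ℝ) + K) + 1) * Real.log X) := by gcongr
    _ = Real.log X := by field_simp

lemma pair_of_allW {K n : ℕ} (hn : 3 ≤ n) (h : AllW K n) : ∃ p : ℕ, p.Prime ∧ (p + n).Prime := by
  have hn3 : (3 : ℝ) ≤ n := by exact_mod_cast hn
  have hl := log_ge_one hn
  have hp : 1 ≤ Real.log (n : ℝ) ^ K := one_le_pow₀ hl
  have h1 := h 0 (n * Real.log n ^ K) le_rfl le_rfl (by
    rw [sub_zero]
    calc (n : ℝ) / Real.log n ^ K ≤ n := div_le_self (by linarith) hp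
      _ ≤ n * Real.log n ^ K := le_mul_of_one_le_right (by linarith) hp)
  have h6 : 1 ≤ sing n := Pool.Agent.R460.GS.one_le_sing n
  have h7 : 0 < 1 / 21 * (sing n * (n * Real.log n ^ K - 0) / Real.log n ^ 2) := by
    rw [sub_zero]
    have : (0 : ℝ) < n := by linarith
    have : 0 < Real.log (n : ℝ) := by linarith
    positivity
  have h8 : 0 < Pool.Agent.R460.GP.pairs n 0 (n * Real.log n ^ K) := by
    have : (0 : ℝ) < (Pool.Agent.R460.GP.pairs n 0 (n * Real.log n ^ K) : ℝ) := lt_of_lt_of_le h7 h1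
    exact_mod_cast this
  obtain ⟨p, hp⟩ := Set.nonempty_of_ncard_ne_zero h8.ne'
  exact ⟨p, hp.1, hp.2.1⟩

/-- from one large scale to the windows of one `n` -/
lemma allW_of {A' B K n : ℕ} {X : ℝ} (hX3 : 3 ≤ X) (h4 : 4 ≤ Real.log X)
    (h21 : 21 * Real.log X ^ B ≤ X) (hA' : 2 * K + B ≤ A')
    (hLL : 50 * ((B : ℝ) + K) * Real.log (Real.log X) ≤ Real.log X) (hn1 : X ≤ n * Real.log X ^ B) (hn2 : (n : ℝ) ≤ X)
    (h : Pool.Agent.R460.GP.AllWindows A' (X * Real.log X ^ K) n) : AllW K n := by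
  intro u v hu hv hlen
  obtain ⟨L, hL⟩ : ∃ L, L = Real.log X := ⟨_, rfl⟩
  rw [← hL] at h4 h21 hLL hn1 h
  have hX0 : 0 < X := by linarith
  have hL0 : 0 < L := by linarith
  have hL1 : 1 ≤ L := by linarith
  have hn21 : (21 : ℝ) ≤ n := by
    have e6 : 21 * L ^ B ≤ n * L ^ B := h21.trans hn1
    exact le_of_mul_le_mul_right e6 (by positivity)
  have hn0 : (0 : ℝ) < n := by linarith
  obtain ⟨l, hl⟩ : ∃ l, l = Real.log (n : ℝ) := ⟨_, rfl⟩
  rw [← hl] at hv hlen ⊢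
  have hl1 : 1 ≤ l := by
    rw [hl]
    exact log_ge_one (by exact_mod_cast (by linarith : (3 : ℝ) ≤ n))
  have hlL : l ≤ L := by rw [hl, hL]; exact Real.log_le_log hn0 hn2
  -- the scale
  obtain ⟨x, hx⟩ : ∃ x, x = X * L ^ K := ⟨_, rfl⟩
  rw [← hx] at h
  have hXx : X ≤ x := by rw [hx]; exact le_mul_of_one_le_right hX0.le (one_le_pow₀ hL1)
  have hx0 : 0 < x := by linarith
  obtain ⟨M, hM⟩ : ∃ M, M = Real.log x := ⟨_, rfl⟩
  have hLM : L ≤ M := by rw [hL, hM]; exact Real.log_le_log hX0 hXx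
  have hMe : M = L + K * Real.log L := by
    rw [hM, hx, Real.log_mul hX0.ne' (by positivity), Real.log_pow, ← hL]
  have hle : L - B * Real.log L ≤ l := by
    have e1 : L ≤ Real.log (n * L ^ B) := by rw [hL]; exact Real.log_le_log hX0 (by rw [← hL]; exact hn1)
    rw [Real.log_mul hn0.ne' (by positivity), Real.log_pow, ← hl] at e1
    linarith
  have hB0 : (0 : ℝ) ≤ B := Nat.cast_nonneg _
  have hK0 : (0 : ℝ) ≤ K := Nat.cast_nonneg _
  have hlogL : 0 ≤ Real.log L := Real.log_nonneg hL1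
  have hBL : 0 ≤ (B : ℝ) * Real.log L := by positivity
  have hKL : 0 ≤ (K : ℝ) * Real.log L := by positivity
  have hratio : 49 / 50 * M ≤ l := by
    rw [hMe]
    nlinarith
  have hM0 : 0 < M := by linarith
  have hvx : v ≤ x := by
    refine hv.trans ?_
    rw [hx]
    exact mul_le_mul hn2 (pow_le_pow_left₀ (by linarith) hlL K) (by positivity) hX0.le
  have hlen2 : x / Real.log x ^ A' ≤ v - u := by
    refine le_trans ?_ hlen
    rw [← hM, div_le_div_iff₀ (by positivity) (by positivity), hx]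
    have e1 : l ^ K ≤ L ^ K := pow_le_pow_left₀ (by linarith) hlL K
    have e2 : L ^ (2 * K + B) ≤ M ^ A' :=
      (pow_le_pow_right₀ hL1 hA').trans (pow_le_pow_left₀ hL0.le hLM A')
    calc X * L ^ K * l ^ K ≤ (n * L ^ B) * L ^ K * L ^ K := by
          apply mul_le_mul _ e1 (by positivity) (by positivity)
          exact mul_le_mul_of_nonneg_right hn1 (by positivity)
      _ = n * L ^ (2 * K + B) := by ring
      _ ≤ n * M ^ A' := mul_le_mul_of_nonneg_left e2 hn0.le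
  have h1 := h u v hu hvx hlen2
  rw [← hM] at h1
  refine le_trans ?_ h1
  have hvu : 0 ≤ v - u := le_trans (by positivity) hlen
  have hs : 0 ≤ sing n := le_trans zero_le_one (Pool.Agent.R460.GS.one_le_sing n)
  have hsv : 0 ≤ sing n * (v - u) := mul_nonneg hs hvu
  rw [← mul_div_assoc, ← mul_div_assoc, div_le_div_iff₀ (by positivity) (by positivity)]
  have e1 : 20 * M ^ 2 ≤ 21 * l ^ 2 := by
    have e2 : (49 / 50 * M) ^ 2 ≤ l ^ 2 := pow_le_pow_left₀ (by positivity) hratio 2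
    nlinarith
  calc 1 / 21 * (sing n * (v - u)) * M ^ 2 = (sing n * (v - u)) * (1 / 420) * (20 * M ^ 2) := by ring
    _ ≤ (sing n * (v - u)) * (1 / 420) * (21 * l ^ 2) := by
        apply mul_le_mul_of_nonneg_left e1
        positivity
    _ = 1 / 20 * (sing n * (v - u)) * l ^ 2 := by ring

theorem ebt_low (K : ℕ) : Pool.Agent.N733.AQ.EBT (7 / 10) (fun n => 2 ∣ n → DW K n) := by
  classical
  intro ρ hρ A T
  obtain ⟨ρ', hρ'⟩ : ∃ ρ', ρ' = min ρ (7 / 10) := ⟨_, rfl⟩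
  have hρ0 : 0 < ρ' := by rw [hρ']; exact lt_min hρ (by norm_num)
  have hρ1 : ρ' ≤ 7 / 10 := by rw [hρ']; exact min_le_right _ _
  have hρ2 : ρ' ≤ ρ := by rw [hρ']; exact min_le_left _ _
  obtain ⟨B, hB⟩ : ∃ B, B = A + 2 := ⟨_, rfl⟩
  obtain ⟨A', hA'⟩ : ∃ A', A' = A + 1 + 2 * K + B := ⟨_, rfl⟩
  obtain ⟨c, hc⟩ := Pool.Agent.R460.GP.pairs_few ρ' hρ0 A' T
  obtain ⟨X₁, h1⟩ := hc 0
  obtain ⟨X₂, h23, h2⟩ := ev_low A B K
  refine ⟨max X₁ X₂, fun X hX q hq hqX a ha V hV => ?_⟩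
  obtain ⟨a1, a2, a3, a4⟩ := h2 X ((le_max_right _ _).trans hX)
  have hX3 : 3 ≤ X := h23.trans ((le_max_right _ _).trans hX)
  have hX0 : 0 < X := by linarith
  have hX1 : 1 ≤ X := by linarith
  have hq0 : (0 : ℝ) < q := by exact_mod_cast hq
  obtain ⟨x, hx⟩ : ∃ x, x = X * Real.log X ^ K := ⟨_, rfl⟩
  have hXx : X ≤ x := by rw [hx]; exact le_mul_of_one_le_right hX0.le (one_le_pow₀ (by linarith))
  have hx0 : 0 < x := by linarith
  have hLM : Real.log X ≤ Real.log x := Real.log_le_log hX0 hXx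
  have hqX' : (q : ℝ) ≤ X ^ (7 / 10 - ρ') :=
    hqX.trans (Real.rpow_le_rpow_of_exponent_le hX1 (by linarith))
  have hqx : (q : ℝ) ≤ x ^ (7 / 10 - ρ') := hqX'.trans (Real.rpow_le_rpow hX0.le hXx (by linarith))
  obtain ⟨D, -, -, hD⟩ := h1 x (((le_max_left _ _).trans hX).trans hXx)
  obtain ⟨hfin, hcard⟩ := hD q hq hqx a (Or.inl (ha.trans (pow_le_pow_left₀ (by linarith) hLM T)))
  obtain ⟨S, hS⟩ : ∃ S, S = V.image (fun v : ℕ => ((q : ℤ) * v + a).toNat) := ⟨_, rfl⟩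
  have hcardS : S.card = V.card := by
    rw [hS]
    apply card_image_of_injOn
    intro v hv w hw h
    have e1 := (hV v hv).1
    have e2 := (hV w hw).1
    simp only at h
    have e3 : (q : ℤ) * v + a = (q : ℤ) * w + a := by omega
    have e4 : (q : ℤ) * v = (q : ℤ) * w := by linarith
    have e5 : (v : ℤ) = w := mul_left_cancel₀ (by exact_mod_cast (by omega : q ≠ 0)) e4
    exact_mod_cast e5
  have hSp : ∀ n ∈ S, 0 < n ∧ (n : ℝ) ≤ X ∧ (n : ℤ) ≡ a [ZMOD q] ∧ 2 ∣ n ∧ ¬ DW K n := by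
    intro n hn
    rw [hS, mem_image] at hn
    obtain ⟨v, hv, rfl⟩ := hn
    obtain ⟨e1, e2, e3⟩ := hV v hv
    have e4 : ((((q : ℤ) * v + a).toNat : ℕ) : ℤ) = (q : ℤ) * v + a := Int.toNat_of_nonneg e1.le
    push Not at e3
    refine ⟨by omega, ?_, ?_, e3.1, e3.2⟩
    · have e5 : ((((q : ℤ) * v + a).toNat : ℕ) : ℝ) = (((q : ℤ) * v + a : ℤ) : ℝ) := by
        rw [← Int.cast_natCast, e4]
      rw [e5]
      exact e2
    · rw [e4, Int.modEq_iff_dvd]
      exact ⟨-(v : ℤ), by ring⟩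
  obtain ⟨S1, hS1⟩ : ∃ S1, S1 = S.filter (fun n : ℕ => X ≤ (n : ℝ) * Real.log X ^ B) := ⟨_, rfl⟩
  obtain ⟨S2, hS2⟩ : ∃ S2, S2 = S.filter (fun n : ℕ => ¬ X ≤ (n : ℝ) * Real.log X ^ B) := ⟨_, rfl⟩
  have hcardSS : S.card = S1.card + S2.card := by
    rw [hS1, hS2]
    exact (card_filter_add_card_filter_not (s := S) (fun n : ℕ => X ≤ (n : ℝ) * Real.log X ^ B)).symm
  have b1 : (S1.card : ℝ) ≤ x / (q * Real.log x ^ A') := by
    refine le_trans ?_ hcard
    have h2 : (S1 : Set ℕ).ncard ≤ (Pool.Agent.R460.GP.exceptional A' x q a).ncard := by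
      apply Set.ncard_le_ncard _ hfin
      intro n hn
      rw [mem_coe, hS1, mem_filter] at hn
      obtain ⟨hn1, hn2⟩ := hn
      obtain ⟨e1, e2, e3, e4, e5⟩ := hSp n hn1
      refine ⟨e1, e2.trans hXx, e4, e3, fun hw => e5 ?_⟩
      rw [hx] at hw
      have hW : AllW K n := allW_of hX3 a1 a2 (by omega) a4 hn2 e2 hw
      have hn21 : (21 : ℝ) ≤ n := by
        have e6 : 21 * Real.log X ^ B ≤ n * Real.log X ^ B := a2.trans hn2
        exact le_of_mul_le_mul_right e6 (by positivity)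
      exact ⟨pair_of_allW (by exact_mod_cast (by linarith : (3 : ℝ) ≤ n)) hW, hW⟩
    rw [Set.ncard_coe_finset] at h2
    exact_mod_cast h2
  have b2 : (S2.card : ℝ) ≤ X / (q * Real.log X ^ B) + 1 := by
    have h3 := classcount S2 q hq a (X / Real.log X ^ B) (by positivity) (by
      intro n hn
      rw [hS2, mem_filter, not_le] at hn
      obtain ⟨e1, e2, e3, e4, e5⟩ := hSp n hn.1
      refine ⟨?_, e3⟩
      rw [le_div_iff₀ (by positivity)]
      exact hn.2.le)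
    rw [div_div, mul_comm (Real.log X ^ B)] at h3
    exact h3
  obtain ⟨L, hL⟩ : ∃ L, L = Real.log X := ⟨_, rfl⟩
  obtain ⟨M, hM⟩ : ∃ M, M = Real.log x := ⟨_, rfl⟩
  rw [← hL] at a1 a2 a3 hLM hx b2 ⊢
  rw [← hM] at hLM b1
  have hL0 : 0 < L := by linarith
  have hL1 : 1 ≤ L := by linarith
  have hM0 : 0 < M := by linarith
  have c0 : x / (q * M ^ A') ≤ X / (q * L ^ (A + 1)) := by
    rw [div_le_div_iff₀ (by positivity) (by positivity), hx]
    have e1 : L ^ K * L ^ (A + 1) ≤ M ^ A' := by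
      rw [← pow_add]
      exact (pow_le_pow_right₀ hL1 (by omega)).trans (pow_le_pow_left₀ hL0.le hLM A')
    calc X * L ^ K * (q * L ^ (A + 1)) = X * q * (L ^ K * L ^ (A + 1)) := by ring
      _ ≤ X * q * M ^ A' := mul_le_mul_of_nonneg_left e1 (by positivity)
      _ = X * (q * M ^ A') := by ring
  have c1 : X / (q * L ^ (A + 1)) ≤ 1 / 4 * (X / (q * L ^ A)) := by
    rw [← mul_div_assoc, div_le_div_iff₀ (by positivity) (by positivity), pow_succ]
    have : 0 ≤ X * (q * L ^ A) := by positivity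
    nlinarith
  have c2 : X / (q * L ^ B) ≤ 1 / 4 * (X / (q * L ^ A)) := by
    refine le_trans ?_ c1
    apply div_le_div_of_nonneg_left hX0.le (by positivity)
    apply mul_le_mul_of_nonneg_left _ hq0.le
    exact pow_le_pow_right₀ hL1 (by omega)
  have c3 : 1 ≤ 1 / 4 * (X / (q * L ^ A)) := by
    rw [← mul_div_assoc, le_div_iff₀ (by positivity), one_mul]
    have e1 : (q : ℝ) ≤ X ^ (7 / 10 : ℝ) := hqX'.trans (Real.rpow_le_rpow_of_exponent_le hX1 (by linarith))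
    have e2 : X ^ (7 / 10 : ℝ) * X ^ (3 / 10 : ℝ) = X := by
      rw [← Real.rpow_add hX0]
      norm_num
    calc (q : ℝ) * L ^ A ≤ X ^ (7 / 10 : ℝ) * (1 / 4 * X ^ (3 / 10 : ℝ)) :=
          mul_le_mul e1 (by linarith) (by positivity) (by positivity)
      _ = 1 / 4 * (X ^ (7 / 10 : ℝ) * X ^ (3 / 10 : ℝ)) := by ring
      _ = 1 / 4 * X := by rw [e2]
  rw [← hcardS, hcardSS]
  push_cast
  have : 0 ≤ X / (q * L ^ A) := by positivity
  linarith

end Run7.h430.OD
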