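import Pool.Agent.R460.GQ.Conv

set_option autoImplicit false

/-! Prime pairs with a difference `d`, all scales between `d (log d)^(C + 8)` and `d (log d)^K` at once: few exceptions in
the residue classes of every modulus `q ≤ X ^ (2 / 3 - ρ)` (helper430). -/

namespace Run7.h430.OD

open Finset Filter Topology
open Pool.Agent.R460.GQ (pairs main Holds exceptional gq_real)

/-- The even number `d` satisfies the formula for prime pairs, in progressions modulo all `q ≤ (log x)^K`, for all scales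
`x` between `d (log d)^(C + 8)` and `d (log d)^K`, with the error `x / (log x)^C`. -/
def PP (K d : ℕ) : Prop :=
  Even d → ∀ C : ℕ, C ≤ K → ∀ x : ℝ, (d : ℝ) * Real.log d ^ (C + 8) ≤ x → x ≤ d * Real.log d ^ K → Holds K C x d

lemma holds_down {K C : ℕ} {x x' : ℝ} {d : ℕ} (hx : 4 ≤ Real.log x) (hx0 : 0 < x) (h1 : x ≤ x') (h2 : x' ≤ 4 * x)
    (h : Holds K (C + 1) x' d) : Holds K C x d := by
  intro q a hq hqx ha had y hy2 hyx
  have hl : Real.log x ≤ Real.log x' := Real.log_le_log hx0 h1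
  have h3 := h q a hq (hqx.trans (pow_le_pow_left₀ (by linarith) hl K)) ha had y hy2 (hyx.trans h1)
  refine h3.trans ?_
  have hl0 : 0 < Real.log x := by linarith
  have hl0' : 0 < Real.log x' := by linarith
  rw [div_le_div_iff₀ (by positivity) (by positivity)]
  have e1 : Real.log x ^ C * Real.log x ≤ Real.log x' ^ (C + 1) := by
    rw [← pow_succ]
    exact pow_le_pow_left₀ hl0.le hl (C + 1)
  have e2 : 0 ≤ Real.log x ^ C := by positivity
  calc x' * Real.log x ^ C ≤ 4 * x * Real.log x ^ C := mul_le_mul_of_nonneg_right h2 e2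
    _ = x * (Real.log x ^ C * 4) := by ring
    _ ≤ x * (Real.log x ^ C * Real.log x) := by gcongr
    _ ≤ x * Real.log x' ^ (C + 1) := by gcongr

/-- real inequalities for large `X` -/
lemma ev_real (K B : ℕ) (ρ Z : ℝ) (hρ : 0 < ρ) : ∃ X₀ : ℝ, 3 ≤ X₀ ∧ ∀ X : ℝ, X₀ ≤ X →
    Z ≤ Real.log X ∧ Real.log X ^ B ≤ X ^ (ρ / 2) ∧ Real.log X ^ B * Z ≤ X ^ (1 / 2 : ℝ) ∧
    (Real.log X ^ K) * 4 ≤ X := by
  have h1 := Real.tendsto_log_atTop.eventually_ge_atTop Z
  have h2 := (isLittleO_log_rpow_rpow_atTop (s := ρ / 2) (B : ℝ) (by positivity)).bound (c := 1) one_pos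
  have h3 := (isLittleO_log_rpow_rpow_atTop (s := (1 / 2 : ℝ)) (B : ℝ) (by norm_num)).bound
    (c := 1 / (|Z| + 1)) (by positivity)
  have h4 := (isLittleO_log_rpow_rpow_atTop (s := (1 : ℝ)) (K : ℝ) (by norm_num)).bound (c := 1 / 4) (by norm_num)
  obtain ⟨X₀, hX₀⟩ := eventually_atTop.1 (h1.and (h2.and (h3.and h4)))
  refine ⟨max X₀ 3, le_max_right _ _, fun X hX => ?_⟩
  obtain ⟨a1, a2, a3, a4⟩ := hX₀ X ((le_max_left _ _).trans hX)
  have hX3 : (3 : ℝ) ≤ X := (le_max_right _ _).trans hX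
  have hX0 : (0 : ℝ) < X := by linarith
  have hl : 0 ≤ Real.log X := Real.log_nonneg (by linarith)
  rw [Real.norm_of_nonneg (by positivity), Real.norm_of_nonneg (by positivity), Real.rpow_natCast] at a2 a3 a4
  refine ⟨a1, by linarith, ?_, ?_⟩
  · have e1 : Real.log X ^ B * Z ≤ Real.log X ^ B * (|Z| + 1) := by
      apply mul_le_mul_of_nonneg_left _ (by positivity)
      linarith [le_abs_self Z]
    refine e1.trans ?_
    have e2 : (0 : ℝ) < |Z| + 1 := by positivity
    calc Real.log X ^ B * (|Z| + 1) ≤ (1 / (|Z| + 1) * X ^ (1 / 2 : ℝ)) * (|Z| + 1) := by gcongr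
      _ = X ^ (1 / 2 : ℝ) := by field_simp
  · rw [Real.rpow_one] at a4
    linarith

/-- **All scales, one class.** -/
theorem pp_class (K A B T : ℕ) (ρ : ℝ) (hρ : 0 < ρ) (hρ1 : ρ ≤ 1 / 3) : ∃ X₀ : ℝ, ∀ X : ℝ, X₀ ≤ X →
    ∀ q : ℕ, 1 ≤ q → (q : ℝ) ≤ X ^ (2 / 3 - ρ) → ∀ b : ℤ, (Int.gcd b q : ℝ) ≤ Real.log X ^ T →
      ∀ S : Finset ℕ, (∀ d ∈ S, 0 < d ∧ (d : ℝ) ≤ X ∧ X ≤ d * Real.log X ^ B ∧ (d : ℤ) ≡ b [ZMOD q] ∧ ¬ PP K d) →
        (S.card : ℝ) ≤ X / (q * Real.log X ^ A) := by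
  classical
  obtain ⟨A', hA'⟩ : ∃ A', A' = A + K + 3 := ⟨_, rfl⟩
  -- the thresholds of `gq_real` for all `C ≤ K`
  have hg : ∀ C : ℕ, ∃ x₀ : ℝ, ∀ x : ℝ, x₀ ≤ x → ∀ m : ℕ, 1 ≤ m → (m : ℝ) ≤ x ^ (2 / 3 - ρ / 2) → ∀ b : ℤ,
      (Int.gcd b m : ℝ) ≤ Real.log x ^ (T + 1) →
        (exceptional K (C + 1) x m b).Finite ∧
        ((exceptional K (C + 1) x m b).ncard : ℝ) ≤ x / (m * Real.log x ^ A') :=
    fun C => gq_real (ρ / 2) (by positivity) A' K (C + 1) (T + 1)
  choose x₀ hx₀ using hg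
  obtain ⟨M, hM⟩ : ∃ M : ℝ, M = ∑ C ∈ range (K + 1), |x₀ C| := ⟨_, rfl⟩
  have hMC : ∀ C ≤ K, x₀ C ≤ M := by
    intro C hC
    rw [hM]
    refine (le_abs_self _).trans ?_
    exact single_le_sum (f := fun C => |x₀ C|) (fun _ _ => abs_nonneg _) (mem_range.2 (by omega))
  have hM0 : 0 ≤ M := by rw [hM]; exact sum_nonneg fun _ _ => abs_nonneg _
  obtain ⟨Z, hZ⟩ : ∃ Z : ℝ, Z = M + 20 * (K + 1) * 2 ^ A' + 2 ^ (2 * K + T + B + 20) := ⟨_, rfl⟩
  obtain ⟨X₀, hX₀3, hX₀⟩ := ev_real K B ρ Z hρ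
  refine ⟨X₀, fun X hX q hq hqX b hb S hS => ?_⟩
  obtain ⟨a1, a2, a3, a4⟩ := hX₀ X hX
  have hX3 : 3 ≤ X := hX₀3.trans hX
  have hX0 : 0 < X := by linarith
  obtain ⟨L, hL⟩ : ∃ L, L = Real.log X := ⟨_, rfl⟩
  rw [← hL] at a1 a2 a3 a4 hb
  have hq0 : (0 : ℝ) < q := by exact_mod_cast hq
  have hZ1 : 2 ^ (2 * K + T + B + 20) ≤ Z := by
    rw [hZ]
    have : (0 : ℝ) ≤ 20 * (K + 1) * 2 ^ A' := by positivity
    linarith
  have hZ2 : 20 * (K + 1) * 2 ^ A' ≤ Z := by
    rw [hZ]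
    have : (0 : ℝ) ≤ 2 ^ (2 * K + T + B + 20) := by positivity
    linarith
  have hZ3 : M ≤ Z := by
    rw [hZ]
    have : (0 : ℝ) ≤ 20 * (K + 1) * 2 ^ A' := by positivity
    have : (0 : ℝ) ≤ 2 ^ (2 * K + T + B + 20) := by positivity
    linarith
  have hbig : (2 : ℝ) ^ (2 * K + T + B + 20) ≤ L := hZ1.trans a1
  have h220 : (2 : ℝ) ^ 20 ≤ L := (pow_le_pow_right₀ (by norm_num) (by omega)).trans hbig
  have hL1 : 1 ≤ L := by norm_num at h220; linarith
  have hL0 : 0 < L := by linarith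
  have hLB : 1 ≤ L ^ B := one_le_pow₀ hL1
  have hLK : 1 ≤ L ^ K := one_le_pow₀ hL1
  -- sizes: everything above `X / L ^ B` has a logarithm of at least `L / 2`
  have hhalf : ∀ x : ℝ, X ≤ x * L ^ B → L / 2 ≤ Real.log x := by
    intro x hx
    have e1 : X ^ (1 / 2 : ℝ) ≤ x := by
      have e2 : X ^ (1 / 2 : ℝ) * X ^ (1 / 2 : ℝ) = X := by
        rw [← Real.rpow_add hX0]
        norm_num
      have e3 : L ^ B ≤ X ^ (1 / 2 : ℝ) := by
        have : L ^ B * 1 ≤ L ^ B * Z := by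
          apply mul_le_mul_of_nonneg_left _ (by positivity)
          have : (1 : ℝ) ≤ 2 ^ (2 * K + T + B + 20) := one_le_pow₀ (by norm_num)
          linarith
        linarith
      by_contra hcon
      push Not at hcon
      have e4 : x * L ^ B < X ^ (1 / 2 : ℝ) * X ^ (1 / 2 : ℝ) := by
        have e5 : 0 < X ^ (1 / 2 : ℝ) := by positivity
        calc x * L ^ B < X ^ (1 / 2 : ℝ) * L ^ B := by
              apply mul_lt_mul_of_pos_right hcon (by positivity)
          _ ≤ X ^ (1 / 2 : ℝ) * X ^ (1 / 2 : ℝ) := by gcongr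
      linarith
    have e6 : Real.log (X ^ (1 / 2 : ℝ)) ≤ Real.log x := Real.log_le_log (by positivity) e1
    rw [Real.log_rpow hX0, ← hL] at e6
    linarith
  have hsqrt : ∀ x : ℝ, X ≤ x * L ^ B → Z ≤ x := by
    intro x hx
    have e1 := a3
    have e2 : X ^ (1 / 2 : ℝ) * X ^ (1 / 2 : ℝ) = X := by
      rw [← Real.rpow_add hX0]
      norm_num
    have e3 : 1 ≤ X ^ (1 / 2 : ℝ) := Real.one_le_rpow (by linarith) (by norm_num)
    have e4 : L ^ B * Z ≤ x * L ^ B := by nlinarith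
    rw [mul_comm] at e4
    exact le_of_mul_le_mul_right e4 (by positivity)
  -- the grid
  obtain ⟨G, hG⟩ : ∃ G : Finset ℕ, G = (range (⌊4 * L⌋₊ + 1)).filter (fun s : ℕ => X ≤ (2 : ℝ) ^ s * L ^ B ∧
    (2 : ℝ) ^ s ≤ 4 * (X * L ^ K)) := ⟨_, rfl⟩
  have hcover : S ⊆ (range (K + 1) ×ˢ G).biUnion (fun z => S.filter (fun d =>
      d ∈ exceptional K (z.1 + 1) ((2 : ℝ) ^ z.2) q b)) := by
    intro d hd
    obtain ⟨e1, e2, e3, e4, e5⟩ := hS d hd
    unfold PP at e5
    push Not at e5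
    obtain ⟨f1, C, f2, x, f3, f4, f5⟩ := e5
    rw [← hL] at e3
    have hd1 : (1 : ℝ) ≤ d := by exact_mod_cast e1
    have hld : L / 2 ≤ Real.log d := hhalf d e3
    have hld0 : 0 < Real.log d := by linarith
    have hld1 : 1 ≤ Real.log d := by norm_num at h220; linarith
    have hldL : Real.log d ≤ L := by rw [hL]; exact Real.log_le_log (by linarith) e2
    have hdx : (d : ℝ) ≤ x := by
      refine le_trans ?_ f3
      exact le_mul_of_one_le_right (by linarith) (one_le_pow₀ hld1)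
    have hx1 : 1 ≤ x := hd1.trans hdx
    have hx0 : 0 < x := by linarith
    obtain ⟨s, hs⟩ : ∃ s, s = Nat.clog 2 ⌈x⌉₊ := ⟨_, rfl⟩
    have hxs : x ≤ (2 : ℝ) ^ s := by
      have g1 : ⌈x⌉₊ ≤ 2 ^ s := by rw [hs]; exact Nat.le_pow_clog (by norm_num) _
      have g2 : ((⌈x⌉₊ : ℕ) : ℝ) ≤ (2 : ℝ) ^ s := by exact_mod_cast g1
      exact (Nat.le_ceil x).trans g2
    have hsx : (2 : ℝ) ^ s ≤ 4 * x := by
      rcases Nat.eq_zero_or_pos s with h0 | h0
      · rw [h0, pow_zero]
        linarith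
      · have hc1 : 1 < ⌈x⌉₊ := by
          by_contra hcon
          push Not at hcon
          rw [hs] at h0
          rw [Nat.clog_of_right_le_one hcon] at h0
          omega
        have g1 : 2 ^ (s - 1) < ⌈x⌉₊ := by
          have := Nat.pow_pred_clog_lt_self (b := 2) (by norm_num) hc1
          rw [← hs] at this
          exact this
        have g2 : (2 : ℝ) ^ (s - 1) < x + 1 := by
          have g3 : ((2 ^ (s - 1) : ℕ) : ℝ) < (⌈x⌉₊ : ℝ) := by exact_mod_cast g1
          push_cast at g3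
          exact g3.trans (Nat.ceil_lt_add_one hx0.le)
        have g4 : (2 : ℝ) ^ s = 2 * 2 ^ (s - 1) := by
          rw [← pow_succ']
          congr 1
          omega
        rw [g4]
        linarith
    have hxup : x ≤ X * L ^ K := by
      refine f4.trans ?_
      apply mul_le_mul e2 (pow_le_pow_left₀ hld0.le hldL K) (by positivity) hX0.le
    rw [mem_biUnion]
    refine ⟨(C, s), ?_, ?_⟩
    · rw [mem_product, mem_range, hG, mem_filter, mem_range]
      refine ⟨by show C < K + 1; omega, ?_, ?_, ?_⟩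
      · show s < ⌊4 * L⌋₊ + 1
        rw [Nat.lt_succ_iff]
        apply Nat.le_floor
        have g1 : (2 : ℝ) ^ s ≤ X * X := by
          calc (2 : ℝ) ^ s ≤ 4 * x := hsx
            _ ≤ 4 * (X * L ^ K) := by gcongr
            _ = X * (L ^ K * 4) := by ring
            _ ≤ X * X := by gcongr
        have g2 := Real.log_le_log (by positivity) g1
        rw [Real.log_pow, Real.log_mul hX0.ne' hX0.ne', ← hL] at g2
        have g3 := Real.log_two_gt_d9
        have g4 : (0 : ℝ) ≤ s := Nat.cast_nonneg s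
        nlinarith
      · show X ≤ (2 : ℝ) ^ s * L ^ B
        exact e3.trans (mul_le_mul_of_nonneg_right (hdx.trans hxs) (by positivity))
      · show (2 : ℝ) ^ s ≤ 4 * (X * L ^ K)
        exact hsx.trans (by gcongr)
    · rw [mem_filter]
      refine ⟨hd, e1, ?_, f1, e4, ?_⟩
      · show (d : ℝ) ≤ (2 : ℝ) ^ s / Real.log ((2 : ℝ) ^ s) ^ (C + 1 + 6)
        have g1 : Real.log ((2 : ℝ) ^ s) ≤ 2 * Real.log d + 2 * Real.log d := by
          have g2 : Real.log ((2 : ℝ) ^ s) ≤ Real.log (4 * x) := Real.log_le_log (by positivity) hsx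
          have g3 : Real.log x ≤ Real.log ((d : ℝ) * Real.log d ^ K) := Real.log_le_log hx0 f4
          rw [Real.log_mul (by linarith) (by positivity), Real.log_pow] at g3
          rw [Real.log_mul (by norm_num) hx0.ne'] at g2
          have g5 : Real.log 4 ≤ 2 := by
            have := Real.log_le_sub_one_of_pos (show (0 : ℝ) < 4 / 2 by norm_num)
            have h42 : Real.log 4 = Real.log 2 + Real.log 2 := by
              rw [← Real.log_mul (by norm_num) (by norm_num)]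
              norm_num
            have := Real.log_two_lt_d9
            linarith
          have g6 : (K : ℝ) * Real.log (Real.log d) ≤ Real.log d := by
            obtain ⟨r, hr⟩ : ∃ r, r = Real.sqrt (Real.log d) := ⟨_, rfl⟩
            have hr0 : 0 < r := by rw [hr]; exact Real.sqrt_pos.2 hld0
            have hrr : r * r = Real.log d := by rw [hr]; exact Real.mul_self_sqrt hld0.le
            have k1 : Real.log (Real.log d) ≤ 2 * r := by
              rw [← hrr, Real.log_mul hr0.ne' hr0.ne']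
              have := Real.log_le_sub_one_of_pos hr0
              linarith
            have k2 : (K : ℝ) ≤ 2 ^ K := by exact_mod_cast (Nat.lt_two_pow_self (n := K)).le
            have k3 : (2 * (K : ℝ)) ^ 2 ≤ r * r := by
              rw [hrr]
              calc (2 * (K : ℝ)) ^ 2 ≤ (2 * 2 ^ K) ^ 2 := by gcongr
                _ = 2 ^ (2 * K + 2) := by ring
                _ ≤ 2 ^ (2 * K + T + B + 19) := pow_le_pow_right₀ (by norm_num) (by omega)
                _ = 2 ^ (2 * K + T + B + 20) / 2 := by rw [eq_div_iff (by norm_num), ← pow_succ]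
                _ ≤ L / 2 := by linarith
                _ ≤ Real.log d := hld
            have k4 : 2 * (K : ℝ) ≤ r := by
              have : (2 * (K : ℝ)) ^ 2 ≤ r ^ 2 := by rw [pow_two r]; exact k3
              exact (pow_le_pow_iff_left₀ (by positivity) hr0.le (by norm_num)).1 this
            calc (K : ℝ) * Real.log (Real.log d) ≤ K * (2 * r) := by gcongr
              _ = (2 * K) * r := by ring
              _ ≤ r * r := by gcongr
              _ = Real.log d := hrr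
          have g7 : (2 : ℝ) ≤ Real.log d := by norm_num at h220; linarith
          linarith
        have g8 : 0 ≤ Real.log ((2 : ℝ) ^ s) := Real.log_nonneg (one_le_pow₀ (by norm_num))
        have g9 : (4 : ℝ) ^ (C + 7) ≤ Real.log d := by
          calc (4 : ℝ) ^ (C + 7) ≤ 4 ^ (K + 7) := pow_le_pow_right₀ (by norm_num) (by omega)
            _ = 2 ^ (2 * K + 14) := by
              rw [show (4 : ℝ) = 2 ^ 2 by norm_num, ← pow_mul, show 2 * (K + 7) = 2 * K + 14 by ring]
            _ ≤ 2 ^ (2 * K + T + B + 19) := pow_le_pow_right₀ (by norm_num) (by omega)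
            _ = 2 ^ (2 * K + T + B + 20) / 2 := by rw [eq_div_iff (by norm_num), ← pow_succ]
            _ ≤ L / 2 := by linarith
            _ ≤ Real.log d := hld
        have hl2 : 0 < Real.log ((2 : ℝ) ^ s) := by
          have : Real.log d ≤ Real.log ((2 : ℝ) ^ s) := Real.log_le_log (by linarith) (hdx.trans hxs)
          linarith
        rw [le_div_iff₀ (by positivity)]
        calc (d : ℝ) * Real.log ((2 : ℝ) ^ s) ^ (C + 1 + 6) ≤ d * (4 * Real.log d) ^ (C + 7) := by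
              apply mul_le_mul_of_nonneg_left _ (by linarith)
              exact pow_le_pow_left₀ g8 (by linarith) _
          _ = d * (Real.log d ^ (C + 7) * 4 ^ (C + 7)) := by rw [mul_pow]; ring
          _ ≤ d * (Real.log d ^ (C + 7) * Real.log d) := by gcongr
          _ = d * Real.log d ^ (C + 8) := by rw [← pow_succ]
          _ ≤ x := f3
          _ ≤ (2 : ℝ) ^ s := hxs
      · show ¬ Holds K (C + 1) ((2 : ℝ) ^ s) d
        intro hh
        refine f5 (holds_down ?_ hx0 hxs hsx hh)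
        have g1 : Real.log d ≤ Real.log x := Real.log_le_log (by linarith) hdx
        norm_num at h220
        linarith
  have hone : ∀ z ∈ range (K + 1) ×ˢ G, ((S.filter (fun d =>
      d ∈ exceptional K (z.1 + 1) ((2 : ℝ) ^ z.2) q b)).card : ℝ) ≤ 4 * (X * L ^ K) / (q * (L / 2) ^ A') := by
    intro z hz
    rw [mem_product, mem_range, hG, mem_filter] at hz
    obtain ⟨h1, h2, h3, h4⟩ := hz
    obtain ⟨C, s⟩ := z
    simp only at h1 h2 h3 h4 ⊢
    have hls : L / 2 ≤ Real.log ((2 : ℝ) ^ s) := hhalf _ h3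
    have h2s : (0 : ℝ) < 2 ^ s := by positivity
    have c1 : x₀ C ≤ (2 : ℝ) ^ s := (hMC C (by omega)).trans (hZ3.trans (hsqrt _ h3))
    have c2 : (q : ℝ) ≤ ((2 : ℝ) ^ s) ^ (2 / 3 - ρ / 2) := by
      have hr1 : 0 ≤ 2 / 3 - ρ / 2 := by linarith
      have hr2 : 2 / 3 - ρ / 2 ≤ 1 := by linarith
      have g1 : X ^ (2 / 3 - ρ / 2) ≤ ((2 : ℝ) ^ s) ^ (2 / 3 - ρ / 2) * X ^ (ρ / 2) := by
        calc X ^ (2 / 3 - ρ / 2) ≤ ((2 : ℝ) ^ s * L ^ B) ^ (2 / 3 - ρ / 2) :=
              Real.rpow_le_rpow hX0.le h3 hr1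
          _ = ((2 : ℝ) ^ s) ^ (2 / 3 - ρ / 2) * (L ^ B) ^ (2 / 3 - ρ / 2) :=
              Real.mul_rpow (by positivity) (by positivity)
          _ ≤ ((2 : ℝ) ^ s) ^ (2 / 3 - ρ / 2) * (L ^ B) ^ (1 : ℝ) := by
              apply mul_le_mul_of_nonneg_left _ (by positivity)
              exact Real.rpow_le_rpow_of_exponent_le hLB hr2
          _ = ((2 : ℝ) ^ s) ^ (2 / 3 - ρ / 2) * L ^ B := by rw [Real.rpow_one]
          _ ≤ ((2 : ℝ) ^ s) ^ (2 / 3 - ρ / 2) * X ^ (ρ / 2) := by gcongr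
      have g2 : X ^ (2 / 3 - ρ) * X ^ (ρ / 2) = X ^ (2 / 3 - ρ / 2) := by
        rw [← Real.rpow_add hX0]
        congr 1
        ring
      rw [← g2] at g1
      exact hqX.trans (le_of_mul_le_mul_right g1 (by positivity))
    have c3 : (Int.gcd b q : ℝ) ≤ Real.log ((2 : ℝ) ^ s) ^ (T + 1) := by
      have g1 : (2 : ℝ) ^ T ≤ Real.log ((2 : ℝ) ^ s) := by
        calc (2 : ℝ) ^ T ≤ 2 ^ (2 * K + T + B + 19) := pow_le_pow_right₀ (by norm_num) (by omega)
          _ = 2 ^ (2 * K + T + B + 20) / 2 := by rw [eq_div_iff (by norm_num), ← pow_succ]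
          _ ≤ L / 2 := by linarith
          _ ≤ _ := hls
      calc (Int.gcd b q : ℝ) ≤ L ^ T := hb
        _ ≤ (2 * Real.log ((2 : ℝ) ^ s)) ^ T := pow_le_pow_left₀ hL0.le (by linarith) T
        _ = Real.log ((2 : ℝ) ^ s) ^ T * 2 ^ T := by rw [mul_pow]; ring
        _ ≤ Real.log ((2 : ℝ) ^ s) ^ T * Real.log ((2 : ℝ) ^ s) := by
          apply mul_le_mul_of_nonneg_left g1
          apply pow_nonneg
          linarith
        _ = _ := by rw [← pow_succ]
    obtain ⟨hfin, hc⟩ := hx₀ C _ c1 q hq c2 b c3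
    have h5 : ((S.filter (fun d => d ∈ exceptional K (C + 1) ((2 : ℝ) ^ s) q b)).card : ℝ) ≤
        ((exceptional K (C + 1) ((2 : ℝ) ^ s) q b).ncard : ℝ) := by
      rw [← Set.ncard_coe_finset]
      have : ((S.filter (fun d => d ∈ exceptional K (C + 1) ((2 : ℝ) ^ s) q b) : Finset ℕ) : Set ℕ).ncard ≤
          (exceptional K (C + 1) ((2 : ℝ) ^ s) q b).ncard := by
        apply Set.ncard_le_ncard _ hfin
        intro d hd
        rw [mem_coe, mem_filter] at hd
        exact hd.2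
      exact_mod_cast this
    refine h5.trans (hc.trans ?_)
    apply div_le_div₀ (by positivity) h4 (mul_pos hq0 (by positivity))
    apply mul_le_mul_of_nonneg_left _ hq0.le
    exact pow_le_pow_left₀ (by positivity) hls A'
  have hGc : (G.card : ℝ) ≤ 5 * L := by
    have h1 : G.card ≤ ⌊4 * L⌋₊ + 1 := by
      rw [hG]
      exact (card_filter_le _ _).trans (by rw [card_range])
    have h2 : (⌊4 * L⌋₊ : ℝ) ≤ 4 * L := Nat.floor_le (by positivity)
    have h3 : (G.card : ℝ) ≤ (⌊4 * L⌋₊ : ℝ) + 1 := by exact_mod_cast h1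
    linarith
  have hsum : (S.card : ℝ) ≤ ((K + 1) * (5 * L)) * (4 * (X * L ^ K) / (q * (L / 2) ^ A')) := by
    have h1 : (S.card : ℝ) ≤ ∑ z ∈ range (K + 1) ×ˢ G, ((S.filter (fun d =>
        d ∈ exceptional K (z.1 + 1) ((2 : ℝ) ^ z.2) q b)).card : ℝ) := by
      have := (card_le_card hcover).trans card_biUnion_le
      exact_mod_cast this
    refine h1.trans ((sum_le_sum hone).trans ?_)
    rw [sum_const, card_product, card_range, nsmul_eq_mul]
    apply mul_le_mul_of_nonneg_right _ (by positivity)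
    push_cast
    gcongr
  refine hsum.trans ?_
  rw [← hL, ← mul_div_assoc, div_le_div_iff₀ (by positivity) (by positivity)]
  have e1 : L ^ A' = 2 ^ A' * (L / 2) ^ A' := by
    rw [← mul_pow]
    congr 1
    ring
  have e2 : L ^ A' = L ^ A * L ^ K * (L * (L * L)) := by
    rw [hA']
    ring
  have e3 : (0 : ℝ) < (L / 2) ^ A' := by positivity
  have e4 : (0 : ℝ) < 2 ^ A' := by positivity
  have e5 : (2 : ℝ) ^ A' * ((K + 1) * (5 * L) * (4 * (X * L ^ K)) * (q * L ^ A)) ≤
      2 ^ A' * (X * (q * (L / 2) ^ A')) := by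
    have e6 : (2 : ℝ) ^ A' * (X * (q * (L / 2) ^ A')) = X * q * L ^ A' := by rw [e1]; ring
    rw [e6, e2]
    have e7 : 20 * ((K : ℝ) + 1) * 2 ^ A' ≤ L := hZ2.trans a1
    have e8 : (1 : ℝ) ≤ L := hL1
    calc (2 : ℝ) ^ A' * ((K + 1) * (5 * L) * (4 * (X * L ^ K)) * (q * L ^ A))
        = (20 * ((K : ℝ) + 1) * 2 ^ A') * (X * q * (L ^ A * L ^ K * L)) := by ring
      _ ≤ L * (X * q * (L ^ A * L ^ K * L)) := by gcongr
      _ = 1 * (X * q * (L ^ A * L ^ K * (L * L))) := by ring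
      _ ≤ L * (X * q * (L ^ A * L ^ K * (L * L))) := by gcongr
      _ = X * q * (L ^ A * L ^ K * (L * (L * L))) := by ring
  exact le_of_mul_le_mul_left e5 e4

end Run7.h430.OD
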