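import Pool.Agent.Run7.h430.OD.A

set_option autoImplicit false

/-! All multiples of the members of a class; the existence of a pair of primes (helper430). -/

namespace Run7.h430.OD

open Finset Filter Topology
open Pool.Agent.R460.GQ (pairs main Holds exceptional gq_real)

/-- `PP K` for all the multiples of `n` by `t ≤ (log n)^K` -/
def PM (K n : ℕ) : Prop := ∀ t : ℕ, 1 ≤ t → (t : ℝ) ≤ Real.log n ^ K → PP K (t * n)

lemma log_ge_one {n : ℕ} (hn : 3 ≤ n) : 1 ≤ Real.log n := by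
  have hn3 : (3 : ℝ) ≤ n := by exact_mod_cast hn
  rw [Real.le_log_iff_exp_le (by linarith)]
  have := Real.exp_one_lt_d9
  linarith

lemma PP_mono {K K' d : ℕ} (hK : K' ≤ K) (hd : 3 ≤ d) (h : PP K d) : PP K' d := by
  intro hev C hC x hx1 hx2
  have hl1 := log_ge_one hd
  have hd3 : (3 : ℝ) ≤ d := by exact_mod_cast hd
  have h1 := h hev C (hC.trans hK) x hx1
    (hx2.trans (mul_le_mul_of_nonneg_left (pow_le_pow_right₀ hl1 hK) (by linarith)))
  intro q a hq hqx ha had y hy2 hyx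
  refine h1 q a hq (hqx.trans (pow_le_pow_right₀ ?_ hK)) ha had y hy2 hyx
  have hdx : (d : ℝ) ≤ x := by
    refine le_trans ?_ hx1
    exact le_mul_of_one_le_right (by linarith) (one_le_pow₀ hl1)
  exact hl1.trans (Real.log_le_log (by linarith) hdx)

lemma classcount (S : Finset ℕ) (q : ℕ) (hq : 1 ≤ q) (h : ℤ) (Y : ℝ) (hY : 0 ≤ Y)
    (hS : ∀ n ∈ S, (n : ℝ) ≤ Y ∧ (n : ℤ) ≡ h [ZMOD q]) : (S.card : ℝ) ≤ Y / q + 1 := by
  have hq0 : (0 : ℝ) < q := by exact_mod_cast hq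
  have hinj : Set.InjOn (fun n : ℕ => n / q) (S : Set ℕ) := by
    intro n hn m hm hnm
    simp only at hnm
    have h1 := (hS n hn).2
    have h2 := (hS m hm).2
    have h3 : (n : ℤ) ≡ m [ZMOD q] := h1.trans h2.symm
    have h4 : n % q = m % q := by
      have := Int.natCast_modEq_iff.1 h3
      exact this
    calc n = q * (n / q) + n % q := (Nat.div_add_mod n q).symm
      _ = q * (m / q) + m % q := by rw [hnm, h4]
      _ = m := Nat.div_add_mod m q
  have hsub : S.image (fun n => n / q) ⊆ range (⌊Y / q⌋₊ + 1) := by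
    intro t ht
    rw [mem_image] at ht
    obtain ⟨n, hn, rfl⟩ := ht
    rw [mem_range, Nat.lt_succ_iff]
    apply Nat.le_floor
    have h1 : ((n / q : ℕ) : ℝ) ≤ (n : ℝ) / q := Nat.cast_div_le
    exact h1.trans (div_le_div_of_nonneg_right (hS n hn).1 hq0.le)
  have h1 : S.card ≤ ⌊Y / q⌋₊ + 1 := by
    rw [← card_image_of_injOn hinj]
    exact (card_le_card hsub).trans (by rw [card_range])
  have h2 : (⌊Y / q⌋₊ : ℝ) ≤ Y / q := Nat.floor_le (by positivity)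
  have h3 : (S.card : ℝ) ≤ (⌊Y / q⌋₊ : ℝ) + 1 := by exact_mod_cast h1
  linarith

lemma ev_thr (H K A : ℕ) : ∃ X₀ : ℕ, 3 ≤ X₀ ∧ ∀ X : ℕ, X₀ ≤ X → (H : ℝ) + 4 ≤ Real.log X ∧
    (X : ℝ) ^ (7 / 12 : ℝ) * Real.log X ^ K ≤ (X : ℝ) ^ (5 / 8 : ℝ) ∧
    4 * Real.log X ^ (K + A) ≤ (X : ℝ) ^ (5 / 12 : ℝ) := by
  have hc := tendsto_natCast_atTop_atTop (R := ℝ)
  have h1 := (Real.tendsto_log_atTop.comp hc).eventually_ge_atTop ((H : ℝ) + 4)
  have h2 := hc.eventually ((isLittleO_log_rpow_rpow_atTop (s := (1 / 24 : ℝ)) (K : ℝ) (by norm_num)).bound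
    (c := 1) one_pos)
  have h3 := hc.eventually ((isLittleO_log_rpow_rpow_atTop (s := (5 / 12 : ℝ)) ((K + A : ℕ) : ℝ) (by norm_num)).bound
    (c := 1 / 4) (by norm_num))
  obtain ⟨X₀, hX₀⟩ := eventually_atTop.1 (h1.and (h2.and h3))
  refine ⟨max X₀ 3, le_max_right _ _, fun X hX => ?_⟩
  obtain ⟨a1, a2, a3⟩ := hX₀ X ((le_max_left _ _).trans hX)
  have hX3 : (3 : ℝ) ≤ X := by exact_mod_cast (le_max_right _ _).trans hX
  have hX0 : (0 : ℝ) < X := by linarith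
  have hl : 0 ≤ Real.log X := Real.log_nonneg (by linarith)
  rw [Real.norm_of_nonneg (by positivity), Real.norm_of_nonneg (by positivity), Real.rpow_natCast] at a2 a3
  refine ⟨a1, ?_, by linarith⟩
  calc (X : ℝ) ^ (7 / 12 : ℝ) * Real.log X ^ K ≤ (X : ℝ) ^ (7 / 12 : ℝ) * (1 * (X : ℝ) ^ (1 / 24 : ℝ)) := by gcongr
    _ = (X : ℝ) ^ (5 / 8 : ℝ) := by
      rw [one_mul, ← Real.rpow_add hX0]
      norm_num

/-- **All multiples, one class.** -/
theorem pm_class (h : ℤ) (hne : h ≠ 0) (K A : ℕ) : ∃ X₀ : ℕ, ∀ X : ℕ, X₀ ≤ X → ∀ q : ℕ, 1 ≤ q →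
    (q : ℝ) ≤ (X : ℝ) ^ (7 / 12 : ℝ) → ∀ S : Finset ℕ,
    (∀ n ∈ S, 0 < n ∧ n ≤ X ∧ (n : ℤ) ≡ h [ZMOD q] ∧ ¬ (n < 3 ∨ PM K n)) →
    (S.card : ℝ) ≤ X / (q * Real.log X ^ A) := by
  classical
  obtain ⟨B, hB⟩ : ∃ B, B = 2 * K + A + 2 := ⟨_, rfl⟩
  obtain ⟨X₁, hX₁⟩ := pp_class K B B (K + 1) (1 / 24) (by norm_num) (by norm_num)
  obtain ⟨X₂, hX₂3, hX₂⟩ := ev_thr h.natAbs K A
  refine ⟨max ⌈X₁⌉₊ X₂, fun X hX q hq hqX S hS => ?_⟩
  obtain ⟨a1, a2, a3⟩ := hX₂ X ((le_max_right _ _).trans hX)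
  have hXX₁ : X₁ ≤ (X : ℝ) := (Nat.le_ceil X₁).trans (by exact_mod_cast (le_max_left _ _).trans hX)
  have hX3 : (3 : ℝ) ≤ X := by exact_mod_cast hX₂3.trans ((le_max_right _ _).trans hX)
  have hX0 : (0 : ℝ) < X := by linarith
  obtain ⟨L, hL⟩ : ∃ L, L = Real.log X := ⟨_, rfl⟩
  rw [← hL] at a1 a2 a3
  have hH0 : (0 : ℝ) ≤ h.natAbs := Nat.cast_nonneg _
  have hL4 : 4 ≤ L := by linarith
  have hL0 : 0 < L := by linarith
  have hL1 : 1 ≤ L := by linarith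
  have hq0 : (0 : ℝ) < q := by exact_mod_cast hq
  obtain ⟨J, hJ⟩ : ∃ J, J = ⌊L ^ K⌋₊ := ⟨_, rfl⟩
  have hLK : 1 ≤ L ^ K := one_le_pow₀ hL1
  have hJ1 : 1 ≤ J := by
    rw [hJ]
    exact Nat.le_floor (by simpa using hLK)
  have hJL : (J : ℝ) ≤ L ^ K := by rw [hJ]; exact Nat.floor_le (by positivity)
  have hJ1' : (1 : ℝ) ≤ J := by exact_mod_cast hJ1
  obtain ⟨X', hX'⟩ : ∃ X' : ℝ, X' = X * J := ⟨_, rfl⟩
  have hXX' : (X : ℝ) ≤ X' := by rw [hX']; nlinarith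
  have hX'0 : 0 < X' := by linarith
  have hLX' : L ≤ Real.log X' := by rw [hL]; exact Real.log_le_log hX0 hXX'
  have hl1 : 1 ≤ Real.log X' := by linarith
  -- the cover
  have hcover : S ⊆ (Icc 1 J).biUnion (fun j => S.filter (fun n => ¬ PP K (j * n))) := by
    intro n hn
    obtain ⟨e1, e2, e3, e4⟩ := hS n hn
    push Not at e4
    obtain ⟨e5, e6⟩ := e4
    unfold PM at e6
    push Not at e6
    obtain ⟨j, j1, j2, j3⟩ := e6
    rw [mem_biUnion]
    refine ⟨j, ?_, ?_⟩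
    · rw [mem_Icc]
      refine ⟨j1, ?_⟩
      rw [hJ]
      apply Nat.le_floor
      refine j2.trans ?_
      rw [hL]
      have h1 : (1 : ℝ) ≤ n := by exact_mod_cast e1
      exact pow_le_pow_left₀ (Real.log_nonneg h1) (Real.log_le_log (by linarith) (by exact_mod_cast e2)) K
    · rw [mem_filter]
      exact ⟨hn, j3⟩
  -- one multiple
  have hone : ∀ j ∈ Icc 1 J, ((S.filter (fun n => ¬ PP K (j * n))).card : ℝ) ≤ 2 * (X' / (q * L ^ B)) + 1 := by
    intro j hj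
    rw [mem_Icc] at hj
    have hj0 : (0 : ℝ) < j := by exact_mod_cast hj.1
    have hj1 : (1 : ℝ) ≤ j := by exact_mod_cast hj.1
    have hjJ : (j : ℝ) ≤ J := by exact_mod_cast hj.2
    obtain ⟨T, hT⟩ : ∃ T, T = S.filter (fun n => ¬ PP K (j * n)) := ⟨_, rfl⟩
    rw [← hT]
    obtain ⟨T1, hT1⟩ : ∃ T1, T1 = T.filter (fun n : ℕ => X' ≤ ((j * n : ℕ) : ℝ) * Real.log X' ^ B) := ⟨_, rfl⟩
    obtain ⟨T2, hT2⟩ : ∃ T2, T2 = T.filter (fun n : ℕ => ¬ X' ≤ ((j * n : ℕ) : ℝ) * Real.log X' ^ B) := ⟨_, rfl⟩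
    have hcard : T.card = T1.card + T2.card := by
      rw [hT1, hT2]
      exact (card_filter_add_card_filter_not (s := T)
        (fun n : ℕ => X' ≤ ((j * n : ℕ) : ℝ) * Real.log X' ^ B)).symm
    have hpow : L ^ B ≤ Real.log X' ^ B := pow_le_pow_left₀ hL0.le hLX' B
    -- T1
    have b1 : (T1.card : ℝ) ≤ X' / (q * L ^ B) := by
      have hjq1 : 1 ≤ j * q := Nat.mul_pos hj.1 hq
      have hjqX : ((j * q : ℕ) : ℝ) ≤ X' ^ (2 / 3 - 1 / 24 : ℝ) := by
        rw [show (2 / 3 - 1 / 24 : ℝ) = 5 / 8 by norm_num]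
        push_cast
        calc (j : ℝ) * q ≤ L ^ K * (X : ℝ) ^ (7 / 12 : ℝ) :=
              mul_le_mul (hjJ.trans hJL) hqX (by positivity) (by positivity)
          _ = (X : ℝ) ^ (7 / 12 : ℝ) * L ^ K := by ring
          _ ≤ (X : ℝ) ^ (5 / 8 : ℝ) := a2
          _ ≤ X' ^ (5 / 8 : ℝ) := Real.rpow_le_rpow hX0.le hXX' (by norm_num)
      have hgcd : (Int.gcd ((j : ℤ) * h) ((j * q : ℕ) : ℤ) : ℝ) ≤ Real.log X' ^ (K + 1) := by
        have e1 : Int.gcd ((j : ℤ) * h) ((j * q : ℕ) : ℤ) = j * Int.gcd h q := by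
          push_cast
          rw [Int.gcd_mul_left, Int.natAbs_natCast]
        rw [e1]
        push_cast
        have e2 : (Int.gcd h q : ℝ) ≤ h.natAbs := by
          have : Int.gcd h q ≤ h.natAbs := Nat.le_of_dvd (Int.natAbs_pos.2 hne) (Nat.gcd_dvd_left _ _)
          exact_mod_cast this
        calc (j : ℝ) * (Int.gcd h q : ℝ) ≤ L ^ K * L :=
              mul_le_mul (hjJ.trans hJL) (by linarith) (by positivity) (by positivity)
          _ = L ^ (K + 1) := by ring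
          _ ≤ Real.log X' ^ (K + 1) := pow_le_pow_left₀ hL0.le hLX' _
      have hinj : Set.InjOn (fun n : ℕ => j * n) (T1 : Set ℕ) := by
        intro n _ m _ hnm
        simp only at hnm
        exact Nat.eq_of_mul_eq_mul_left hj.1 hnm
      have hc := hX₁ X' (hXX₁.trans hXX') (j * q) hjq1 hjqX ((j : ℤ) * h) hgcd
        (T1.image (fun n : ℕ => j * n)) (by
          intro t ht
          rw [mem_image] at ht
          obtain ⟨n, hn, rfl⟩ := ht
          rw [hT1, mem_filter, hT, mem_filter] at hn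
          obtain ⟨⟨hnS, hnV⟩, hnX⟩ := hn
          obtain ⟨e1, e2, e3, e4⟩ := hS n hnS
          have hnX2 : (n : ℝ) ≤ X := by exact_mod_cast e2
          refine ⟨Nat.mul_pos hj.1 e1, ?_, hnX, ?_, hnV⟩
          · rw [hX']
            push_cast
            calc (j : ℝ) * n ≤ J * X := mul_le_mul hjJ hnX2 (by positivity) (by positivity)
              _ = X * J := by ring
          · push_cast
            exact e3.mul_left')
      rw [card_image_of_injOn hinj] at hc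
      refine hc.trans ?_
      apply div_le_div_of_nonneg_left hX'0.le (by positivity)
      push_cast
      calc (q : ℝ) * L ^ B ≤ q * Real.log X' ^ B := by gcongr
        _ = 1 * q * Real.log X' ^ B := by ring
        _ ≤ (j : ℝ) * q * Real.log X' ^ B := by gcongr
    -- T2
    have b2 : (T2.card : ℝ) ≤ X' / (q * L ^ B) + 1 := by
      have h1 := classcount T2 q hq h (X' / L ^ B) (by positivity) (by
        intro n hn
        rw [hT2, mem_filter, hT, mem_filter, not_le] at hn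
        obtain ⟨⟨hnS, hnV⟩, hnX⟩ := hn
        obtain ⟨e1, e2, e3, e4⟩ := hS n hnS
        refine ⟨?_, e3⟩
        rw [le_div_iff₀ (by positivity)]
        have hn1 : (1 : ℝ) ≤ n := by exact_mod_cast e1
        push_cast at hnX
        calc (n : ℝ) * L ^ B ≤ n * Real.log X' ^ B := by gcongr
          _ = 1 * n * Real.log X' ^ B := by ring
          _ ≤ (j : ℝ) * n * Real.log X' ^ B := by gcongr
          _ ≤ X' := hnX.le)
      rw [div_div, mul_comm (L ^ B)] at h1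
      exact h1
    rw [hcard]
    push_cast
    linarith
  -- the sum
  have hsum : (S.card : ℝ) ≤ J * (2 * (X' / (q * L ^ B)) + 1) := by
    have h1 : (S.card : ℝ) ≤ ∑ j ∈ Icc 1 J, ((S.filter (fun n => ¬ PP K (j * n))).card : ℝ) := by
      have := (card_le_card hcover).trans card_biUnion_le
      exact_mod_cast this
    refine h1.trans ((sum_le_sum hone).trans ?_)
    rw [sum_const, Nat.card_Icc, nsmul_eq_mul, Nat.add_sub_cancel]
  refine hsum.trans ?_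
  have c1 : (J : ℝ) * (2 * (X' / (q * L ^ B))) ≤ 1 / 2 * (X / (q * L ^ A)) := by
    rw [hX', ← mul_div_assoc, ← mul_div_assoc, ← mul_div_assoc, div_le_div_iff₀ (by positivity) (by positivity)]
    have e1 : L ^ B = L ^ K * L ^ K * L ^ A * L ^ 2 := by
      rw [hB, ← pow_add, ← pow_add, ← pow_add]
      congr 1
      ring
    rw [e1]
    have e2 : (J : ℝ) * J ≤ L ^ K * L ^ K := mul_le_mul hJL hJL (by positivity) (by positivity)
    have e3 : 16 ≤ L ^ 2 := by nlinarith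
    have e4 : 0 ≤ (X : ℝ) * (q * L ^ A) := by positivity
    calc (J : ℝ) * (2 * (X * J)) * (q * L ^ A) = 2 * (J * J) * (X * (q * L ^ A)) := by ring
      _ ≤ 2 * (L ^ K * L ^ K) * (X * (q * L ^ A)) := by gcongr
      _ ≤ (1 / 2 * L ^ 2) * (L ^ K * L ^ K) * (X * (q * L ^ A)) := by
        have e5 : (2 : ℝ) ≤ 1 / 2 * L ^ 2 := by linarith
        gcongr
      _ = 1 / 2 * X * (q * (L ^ K * L ^ K * L ^ A * L ^ 2)) := by ring
  have c2 : (J : ℝ) ≤ 1 / 2 * (X / (q * L ^ A)) := by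
    rw [← mul_div_assoc, le_div_iff₀ (by positivity)]
    have e6 : (X : ℝ) ^ (7 / 12 : ℝ) * (X : ℝ) ^ (5 / 12 : ℝ) = X := by
      rw [← Real.rpow_add hX0]
      norm_num
    calc (J : ℝ) * (q * L ^ A) ≤ L ^ K * ((X : ℝ) ^ (7 / 12 : ℝ) * L ^ A) := by gcongr
      _ = (X : ℝ) ^ (7 / 12 : ℝ) * (1 / 4 * (4 * L ^ (K + A))) := by rw [pow_add]; ring
      _ ≤ (X : ℝ) ^ (7 / 12 : ℝ) * (1 / 4 * (X : ℝ) ^ (5 / 12 : ℝ)) := by gcongr
      _ = 1 / 4 * ((X : ℝ) ^ (7 / 12 : ℝ) * (X : ℝ) ^ (5 / 12 : ℝ)) := by ring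
      _ = 1 / 4 * X := by rw [e6]
      _ ≤ 1 / 2 * X := by linarith
  have hJe : (J : ℝ) * (2 * (X' / (q * L ^ B)) + 1) = J * (2 * (X' / (q * L ^ B))) + J := by ring
  rw [hJe, ← hL]
  linarith

end Run7.h430.OD
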