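import Pool.Agent.Run7.h430.OD.B

set_option autoImplicit false

/-! The formula for prime pairs gives a pair (helper430). -/

namespace Run7.h430.OD

open Finset Filter Topology
open Pool.Agent.R460.GQ (pairs main Holds exceptional gq_real)
open Pool.Agent.H560R3.GB (C₂)

lemma integral_lower {x : ℝ} (hx : 3 ≤ x) : (x - 2) / Real.log x ^ 2 ≤ ∫ t in (2 : ℝ)..x, 1 / Real.log t ^ 2 := by
  have hlx : 0 < Real.log x := Real.log_pos (by linarith)
  have h1 : ∫ _ in (2 : ℝ)..x, 1 / Real.log x ^ 2 ≤ ∫ t in (2 : ℝ)..x, 1 / Real.log t ^ 2 := by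
    apply intervalIntegral.integral_mono_on (by linarith)
    · exact intervalIntegrable_const
    · apply ContinuousOn.intervalIntegrable
      intro t ht
      rw [Set.uIcc_of_le (by linarith)] at ht
      have ht1 : 1 < t := by linarith [ht.1]
      have hl : Real.log t ≠ 0 := (Real.log_pos ht1).ne'
      apply ContinuousAt.continuousWithinAt
      have ht0 : t ≠ 0 := by linarith
      fun_prop (disch := first | assumption | positivity)
    · intro t ht
      have ht1 : 1 < t := by linarith [ht.1]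
      have hl : 0 < Real.log t := Real.log_pos ht1
      apply one_div_le_one_div_of_le (by positivity)
      exact pow_le_pow_left₀ hl.le (Real.log_le_log (by linarith) ht.2) 2
  rw [intervalIntegral.integral_const, smul_eq_mul] at h1
  calc (x - 2) / Real.log x ^ 2 = (x - 2) * (1 / Real.log x ^ 2) := by ring
    _ ≤ _ := h1

/-- the formula gives a pair of primes with the difference `d` -/
lemma pair_of {d : ℕ} (hd : 21 ≤ d)
    (hs : 1 ≤ 2 * C₂ * ∏ p ∈ d.primeFactors.filter (fun p => 2 < p), ((p : ℝ) - 1) / ((p : ℝ) - 2))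
    (hev : Even d) (h : PP 14 d) : ∃ p : ℕ, p.Prime ∧ (p + d).Prime := by
  classical
  have hd21 : (21 : ℝ) ≤ d := by exact_mod_cast hd
  have hl3 : 3 ≤ Real.log d := by
    have h1 : Real.exp 3 ≤ 21 := by
      have h2 := Real.exp_one_lt_d9
      have h3 : Real.exp 3 = Real.exp 1 ^ 3 := by
        rw [← Real.exp_nat_mul]
        norm_num
      rw [h3]
      calc Real.exp 1 ^ 3 ≤ 2.7182818286 ^ 3 := by gcongr
        _ ≤ 21 := by norm_num
    rw [Real.le_log_iff_exp_le (by linarith)]
    linarith
  obtain ⟨x, hx⟩ : ∃ x : ℝ, x = d * Real.log d ^ 11 := ⟨_, rfl⟩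
  have hl1 : 1 ≤ Real.log d := by linarith
  have hdx : (d : ℝ) ≤ x := by
    rw [hx]
    exact le_mul_of_one_le_right (by linarith) (one_le_pow₀ hl1)
  have hlx : 3 ≤ Real.log x := hl3.trans (Real.log_le_log (by linarith) hdx)
  have h1 := h hev 3 (by norm_num) x (by rw [hx]) (by
    rw [hx]
    exact mul_le_mul_of_nonneg_left (pow_le_pow_right₀ hl1 (by norm_num)) (by linarith))
  have h2 := h1 1 1 le_rfl (by
    rw [Nat.cast_one]
    exact one_le_pow₀ (by linarith)) (Nat.coprime_one_right 1) (Nat.coprime_one_right _) x (by linarith) le_rfl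
  have hm : main d x 1 = (2 * C₂ * ∏ p ∈ d.primeFactors.filter (fun p => 2 < p), ((p : ℝ) - 1) / ((p : ℝ) - 2)) *
      ∫ t in (2 : ℝ)..x, 1 / Real.log t ^ 2 := by
    unfold Pool.Agent.R460.GQ.main
    have e1 : (range 1).filter (fun α => Nat.Coprime α 1 ∧ Nat.Coprime (α + d) 1) = range 1 := by
      apply filter_true_of_mem
      intro a _
      exact ⟨Nat.coprime_one_right a, Nat.coprime_one_right _⟩
    rw [e1, card_range]
    push_cast
    ring
  have h3 := integral_lower (x := x) (by linarith)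
  have h4 : (x - 2) / Real.log x ^ 2 ≤ main d x 1 := by
    rw [hm]
    have h5 : 0 ≤ (x - 2) / Real.log x ^ 2 := div_nonneg (by linarith) (by positivity)
    calc (x - 2) / Real.log x ^ 2 = 1 * ((x - 2) / Real.log x ^ 2) := (one_mul _).symm
      _ ≤ _ := mul_le_mul hs h3 h5 (by linarith)
  have h5 : x / Real.log x ^ 3 < (x - 2) / Real.log x ^ 2 := by
    rw [div_lt_div_iff₀ (by positivity) (by positivity)]
    have e1 : x < (x - 2) * Real.log x := by nlinarith
    have e2 : 0 < Real.log x ^ 2 := by positivity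
    calc x * Real.log x ^ 2 < (x - 2) * Real.log x * Real.log x ^ 2 := mul_lt_mul_of_pos_right e1 e2
      _ = (x - 2) * Real.log x ^ 3 := by ring
  have h6 : (0 : ℝ) < (pairs d x 1 1 : ℝ) := by
    have := (abs_le.1 h2).1
    linarith
  have h7 : 0 < pairs d x 1 1 := by exact_mod_cast h6
  unfold Pool.Agent.R460.GQ.pairs at h7
  rw [card_pos] at h7
  obtain ⟨p, hp⟩ := h7
  rw [mem_filter] at hp
  exact ⟨p, hp.2.1, hp.2.2.1⟩

end Run7.h430.OD
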