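import Pool.Agent.Run7.h430.OD.C
import Pool.Agent.N826.IT.G

set_option autoImplicit false

/-! The property of the differences along the orbits of Euler's function (helper430); `cbN` and `cb_and` are copied from
`N826/IT/V` (starting files). -/

namespace Run7.h430.OD

open Finset Filter Topology
open Pool.Agent.N733.TG (CB)
open Pool.Agent.N826.IT.Orb (Rare)

theorem cbN (h : ℤ) (N₀ A : ℕ) : CB h (fun n => N₀ ≤ n) A := by
  have h2 := (isLittleO_log_rpow_rpow_atTop (s := (5 / 12 : ℝ)) (A : ℝ) (by norm_num)).bound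
    (c := 1 / ((N₀ : ℝ) + 1)) (by positivity)
  have h3 := (tendsto_natCast_atTop_atTop (R := ℝ)).eventually h2
  obtain ⟨X₀, hX₀⟩ := eventually_atTop.1 h3
  refine ⟨max X₀ 3, fun X hX q hq hqX S hS => ?_⟩
  have h4 := hX₀ X ((le_max_left _ _).trans hX)
  have hX3 : (3 : ℝ) ≤ X := by exact_mod_cast (le_max_right _ _).trans hX
  have hX0 : (0 : ℝ) < X := by linarith
  have hl : 0 ≤ Real.log X := Real.log_nonneg (by linarith)
  rw [Real.norm_of_nonneg (by positivity), Real.norm_of_nonneg (by positivity), Real.rpow_natCast] at h4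
  have hq0 : (0 : ℝ) < q := by exact_mod_cast hq
  have hl1 : 1 ≤ Real.log X := by
    rw [Real.le_log_iff_exp_le (by linarith)]
    have := Real.exp_one_lt_d9
    linarith
  have hS2 : S.card ≤ N₀ := by
    have : S ⊆ Icc 1 N₀ := by
      intro n hn
      obtain ⟨e1, _, _, e4⟩ := hS n hn
      rw [mem_Icc]
      omega
    exact (card_le_card this).trans (by simp)
  have hS2' : (S.card : ℝ) ≤ N₀ + 1 := by
    have : (S.card : ℝ) ≤ N₀ := by exact_mod_cast hS2
    linarith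
  refine hS2'.trans ?_
  rw [le_div_iff₀ (by positivity)]
  have hN : (0 : ℝ) < (N₀ : ℝ) + 1 := by positivity
  calc ((N₀ : ℝ) + 1) * (q * Real.log X ^ A)
      ≤ ((N₀ : ℝ) + 1) * ((X : ℝ) ^ (7 / 12 : ℝ) * (1 / ((N₀ : ℝ) + 1) * (X : ℝ) ^ (5 / 12 : ℝ))) := by gcongr
    _ = (X : ℝ) ^ (7 / 12 : ℝ) * (X : ℝ) ^ (5 / 12 : ℝ) := by field_simp
    _ = X := by
      rw [← Real.rpow_add hX0]
      norm_num

theorem cb_and {h : ℤ} {P Q : ℕ → Prop} (hP : ∀ A, CB h P A) (hQ : ∀ A, CB h Q A) (A : ℕ) :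
    CB h (fun n => P n ∧ Q n) A := by
  classical
  obtain ⟨X₁, h1⟩ := hP (A + 1)
  obtain ⟨X₂, h2⟩ := hQ (A + 1)
  have hlog := (Real.tendsto_log_atTop.comp (tendsto_natCast_atTop_atTop (R := ℝ))).eventually_ge_atTop (2 : ℝ)
  obtain ⟨X₃, h3⟩ := eventually_atTop.1 hlog
  refine ⟨max X₁ (max X₂ X₃), fun X hX q hq hqX S hS => ?_⟩
  have b1 := h1 X ((le_max_left _ _).trans hX) q hq hqX (S.filter (fun n => ¬ P n)) (fun n hn => by
    rw [mem_filter] at hn
    obtain ⟨e1, e2, e3, _⟩ := hS n hn.1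
    exact ⟨e1, e2, e3, hn.2⟩)
  have b2 := h2 X (((le_max_left _ _).trans (le_max_right _ _)).trans hX) q hq hqX (S.filter (fun n => ¬ Q n))
    (fun n hn => by
      rw [mem_filter] at hn
      obtain ⟨e1, e2, e3, _⟩ := hS n hn.1
      exact ⟨e1, e2, e3, hn.2⟩)
  have b3 := h3 X (((le_max_right _ _).trans (le_max_right _ _)).trans hX)
  simp only [Function.comp] at b3
  have hsub : S ⊆ S.filter (fun n => ¬ P n) ∪ S.filter (fun n => ¬ Q n) := by
    intro n hn
    rw [mem_union, mem_filter, mem_filter]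
    have e4 := (hS n hn).2.2.2
    by_cases hp : P n
    · exact Or.inr ⟨hn, fun hq => e4 ⟨hp, hq⟩⟩
    · exact Or.inl ⟨hn, hp⟩
  have hc : (S.card : ℝ) ≤ ((S.filter (fun n => ¬ P n)).card : ℝ) + (S.filter (fun n => ¬ Q n)).card := by
    exact_mod_cast (card_le_card hsub).trans (card_union_le _ _)
  have hq0 : (0 : ℝ) < q := by exact_mod_cast hq
  have hl0 : 0 < Real.log X := by linarith
  have e : (X : ℝ) / (q * Real.log X ^ (A + 1)) ≤ 1 / 2 * (X / (q * Real.log X ^ A)) := by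
    rw [← mul_div_assoc, div_le_div_iff₀ (by positivity) (by positivity), pow_succ]
    have : 0 ≤ (X : ℝ) * (q * Real.log X ^ A) := by positivity
    nlinarith
  linarith


/-- `R j n`: `21 ≤ n` and all the multiples of `n` by `t ≤ (log n)^(j + 14)` are good. -/
theorem rare_PM : Rare (fun j n => 21 ≤ n ∧ PM (j + 14) n) := by
  refine ⟨fun i j n hij hn h => ⟨h.1, ?_⟩, fun j h hne A => ?_⟩
  · intro t ht1 ht2
    have hl1 := log_ge_one hn
    refine PP_mono (show i + 14 ≤ j + 14 by omega) ?_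
      (h.2 t ht1 (ht2.trans (pow_le_pow_right₀ hl1 (by omega))))
    calc 3 ≤ n := hn
      _ = 1 * n := (one_mul n).symm
      _ ≤ t * n := Nat.mul_le_mul_right n ht1
  · have h1 : ∀ A, CB h (fun n => 21 ≤ n ∧ (n < 3 ∨ PM (j + 14) n)) A :=
      fun A => cb_and (fun A => cbN h 21 A) (fun A => pm_class h hne (j + 14) A) A
    obtain ⟨X₀, h2⟩ := h1 A
    refine ⟨X₀, fun X hX q hq hqX S hS => h2 X hX q hq hqX S (fun n hn => ?_)⟩
    obtain ⟨e1, e2, e3, e4⟩ := hS n hn
    refine ⟨e1, e2, e3, fun h5 => e4 (Or.inr ⟨h5.1, ?_⟩)⟩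
    rcases h5.2 with h6 | h6
    · omega
    · exact h6

end Run7.h430.OD
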