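import Pool.Agent.Run7.h430.OD.C
import Pool.Agent.N733.AQ.A
import Pool.Agent.W93.GB1

set_option autoImplicit false

/-! The exceptional differences in the classes of every modulus, in the form needed for linear combinations of `m` and
`f m` (helper430). -/

namespace Run7.h430.OD

open Finset Filter Topology
open Pool.Agent.H560R3.GB (C₂)

/-- a pair of primes and the formula at all scales -/
def DG (K n : ℕ) : Prop := (∃ p : ℕ, p.Prime ∧ (p + n).Prime) ∧ (Even n → PP K n)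

lemma ev_ebt (A B : ℕ) : ∃ X₀ : ℝ, 3 ≤ X₀ ∧ ∀ X : ℝ, X₀ ≤ X → 4 ≤ Real.log X ∧ 21 * Real.log X ^ B ≤ X ∧
    4 * Real.log X ^ A ≤ X ^ (1 / 3 : ℝ) := by
  have h1 := Real.tendsto_log_atTop.eventually_ge_atTop 4
  have h2 := (isLittleO_log_rpow_rpow_atTop (s := (1 : ℝ)) (B : ℝ) (by norm_num)).bound (c := 1 / 21) (by norm_num)
  have h3 := (isLittleO_log_rpow_rpow_atTop (s := (1 / 3 : ℝ)) (A : ℝ) (by norm_num)).bound (c := 1 / 4) (by norm_num)
  obtain ⟨X₀, hX₀⟩ := eventually_atTop.1 (h1.and (h2.and h3))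
  refine ⟨max X₀ 3, le_max_right _ _, fun X hX => ?_⟩
  obtain ⟨a1, a2, a3⟩ := hX₀ X ((le_max_left _ _).trans hX)
  have hX3 : (3 : ℝ) ≤ X := (le_max_right _ _).trans hX
  have hX0 : (0 : ℝ) < X := by linarith
  have hl : 0 ≤ Real.log X := Real.log_nonneg (by linarith)
  rw [Real.norm_of_nonneg (by positivity), Real.norm_of_nonneg (by positivity), Real.rpow_natCast] at a2 a3
  rw [Real.rpow_one] at a2
  exact ⟨a1, by linarith, by linarith⟩

theorem ebt (K : ℕ) : Pool.Agent.N733.AQ.EBT (2 / 3) (fun n => 2 ∣ n → DG K n) := by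
  classical
  intro ρ hρ A T
  obtain ⟨ρ', hρ'⟩ : ∃ ρ', ρ' = min ρ (1 / 3) := ⟨_, rfl⟩
  have hρ0 : 0 < ρ' := by rw [hρ']; exact lt_min hρ (by norm_num)
  have hρ1 : ρ' ≤ 1 / 3 := by rw [hρ']; exact min_le_right _ _
  have hρ2 : ρ' ≤ ρ := by rw [hρ']; exact min_le_left _ _
  obtain ⟨B, hB⟩ : ∃ B, B = A + 2 := ⟨_, rfl⟩
  obtain ⟨X₁, h1⟩ := pp_class (K + 14) (A + 1) B T ρ' hρ0 hρ1
  obtain ⟨X₂, h23, h2⟩ := ev_ebt A B
  refine ⟨max X₁ X₂, fun X hX q hq hqX a ha V hV => ?_⟩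
  obtain ⟨a1, a2, a3⟩ := h2 X ((le_max_right _ _).trans hX)
  have hX3 : 3 ≤ X := h23.trans ((le_max_right _ _).trans hX)
  have hX0 : 0 < X := by linarith
  have hX1 : 1 ≤ X := by linarith
  have hq0 : (0 : ℝ) < q := by exact_mod_cast hq
  obtain ⟨L, hL⟩ : ∃ L, L = Real.log X := ⟨_, rfl⟩
  rw [← hL] at a1 a2 a3
  have hL0 : 0 < L := by linarith
  have hL1 : 1 ≤ L := by linarith
  have hqX' : (q : ℝ) ≤ X ^ (2 / 3 - ρ') :=
    hqX.trans (Real.rpow_le_rpow_of_exponent_le hX1 (by linarith))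
  obtain ⟨S, hS⟩ : ∃ S, S = V.image (fun v : ℕ => ((q : ℤ) * v + a).toNat) := ⟨_, rfl⟩
  have hcardS : S.card = V.card := by
    rw [hS]
    apply card_image_of_injOn
    intro v hv w hw h
    have e1 := (hV v hv).1
    have e2 := (hV w hw).1
    simp only at h
    have e3 : (q : ℤ) * v + a = (q : ℤ) * w + a := by omega
    have e4 : (q : ℤ) * v = (q : ℤ) * w := by linarith
    have e5 : (v : ℤ) = w := mul_left_cancel₀ (by exact_mod_cast (by omega : q ≠ 0)) e4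
    exact_mod_cast e5
  have hSp : ∀ n ∈ S, 0 < n ∧ (n : ℝ) ≤ X ∧ (n : ℤ) ≡ a [ZMOD q] ∧ 2 ∣ n ∧ ¬ DG K n := by
    intro n hn
    rw [hS, mem_image] at hn
    obtain ⟨v, hv, rfl⟩ := hn
    obtain ⟨e1, e2, e3⟩ := hV v hv
    have e4 : ((((q : ℤ) * v + a).toNat : ℕ) : ℤ) = (q : ℤ) * v + a := Int.toNat_of_nonneg e1.le
    push Not at e3
    refine ⟨by omega, ?_, ?_, e3.1, e3.2⟩
    · have e5 : ((((q : ℤ) * v + a).toNat : ℕ) : ℝ) = (((q : ℤ) * v + a : ℤ) : ℝ) := by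
        rw [← Int.cast_natCast, e4]
      rw [e5]
      exact e2
    · rw [e4, Int.modEq_iff_dvd]
      exact ⟨-(v : ℤ), by ring⟩
  obtain ⟨S1, hS1⟩ : ∃ S1, S1 = S.filter (fun n : ℕ => X ≤ (n : ℝ) * L ^ B) := ⟨_, rfl⟩
  obtain ⟨S2, hS2⟩ : ∃ S2, S2 = S.filter (fun n : ℕ => ¬ X ≤ (n : ℝ) * L ^ B) := ⟨_, rfl⟩
  have hcard : S.card = S1.card + S2.card := by
    rw [hS1, hS2]
    exact (card_filter_add_card_filter_not (s := S) (fun n : ℕ => X ≤ (n : ℝ) * L ^ B)).symm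
  have b1 : (S1.card : ℝ) ≤ X / (q * L ^ (A + 1)) := by
    have h3 := h1 X ((le_max_left _ _).trans hX) q hq hqX' a ha S1 (by
      intro n hn
      rw [hS1, mem_filter] at hn
      obtain ⟨hn1, hn2⟩ := hn
      obtain ⟨e1, e2, e3, e4, e5⟩ := hSp n hn1
      rw [hL] at hn2
      refine ⟨e1, e2, hn2, e3, fun hpp => e5 ?_⟩
      have hn21 : 21 ≤ n := by
        rw [← hL] at hn2
        have e6 : 21 * L ^ B ≤ n * L ^ B := a2.trans hn2
        have e7 : (21 : ℝ) ≤ n := le_of_mul_le_mul_right e6 (by positivity)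
        exact_mod_cast e7
      have hev : Even n := even_iff_two_dvd.2 e4
      exact ⟨pair_of hn21 (Pool.Agent.W93.GB.one_le_sing n) hev (PP_mono (by omega) (by omega) hpp),
        fun _ => PP_mono (by omega) (by omega) hpp⟩)
    rw [← hL] at h3
    exact h3
  have b2 : (S2.card : ℝ) ≤ X / (q * L ^ B) + 1 := by
    have h3 := classcount S2 q hq a (X / L ^ B) (by positivity) (by
      intro n hn
      rw [hS2, mem_filter, not_le] at hn
      obtain ⟨e1, e2, e3, e4, e5⟩ := hSp n hn.1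
      refine ⟨?_, e3⟩
      rw [le_div_iff₀ (by positivity)]
      exact hn.2.le)
    rw [div_div, mul_comm (L ^ B)] at h3
    exact h3
  have c1 : X / (q * L ^ (A + 1)) ≤ 1 / 4 * (X / (q * L ^ A)) := by
    rw [← mul_div_assoc, div_le_div_iff₀ (by positivity) (by positivity), pow_succ]
    have : 0 ≤ X * (q * L ^ A) := by positivity
    nlinarith
  have c2 : X / (q * L ^ B) ≤ 1 / 4 * (X / (q * L ^ A)) := by
    refine le_trans ?_ c1
    apply div_le_div_of_nonneg_left hX0.le (by positivity)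
    apply mul_le_mul_of_nonneg_left _ hq0.le
    exact pow_le_pow_right₀ hL1 (by omega)
  have c3 : 1 ≤ 1 / 4 * (X / (q * L ^ A)) := by
    rw [← mul_div_assoc, le_div_iff₀ (by positivity), one_mul]
    have e1 : (q : ℝ) ≤ X ^ (2 / 3 : ℝ) := hqX'.trans (Real.rpow_le_rpow_of_exponent_le hX1 (by linarith))
    have e2 : X ^ (2 / 3 : ℝ) * X ^ (1 / 3 : ℝ) = X := by
      rw [← Real.rpow_add hX0]
      norm_num
    calc (q : ℝ) * L ^ A ≤ X ^ (2 / 3 : ℝ) * (1 / 4 * X ^ (1 / 3 : ℝ)) :=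
          mul_le_mul e1 (by linarith) (by positivity) (by positivity)
      _ = 1 / 4 * (X ^ (2 / 3 : ℝ) * X ^ (1 / 3 : ℝ)) := by ring
      _ = 1 / 4 * X := by rw [e2]
  rw [← hcardS, hcard, ← hL]
  push_cast
  have : 0 ≤ X / (q * L ^ A) := by positivity
  linarith

end Run7.h430.OD
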